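import Pool.Agent.U865.SV.Final
import Pool.Agent.TH845.KN.B2

/-!
# Boyd's conjecture for integer matrices and their departure from normality

For a square integer matrix `A` let `M(A)` be the Mahler measure of its characteristic polynomial.
Let `A^*` be the adjoint of `A` with respect to an inner product of `ℝ ^ n`, chosen such that
`B = A^* A` is an integer matrix too; for the standard inner product `B = Aᵀ A`, for every `A`.
(If `A` is normal, `M(B) = M(A) ^ 2`.)

Let `κ` be a monotone function.  We consider the set of the measures `M(A)` of the integer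
matrices `A`, of all sizes, having such an inner product with `M(B) ≤ κ(M(A))`.

`L K` is the set of the Mahler measures of the nonzero integer polynomials `F` (in any number of
variables) having a coprime companion `G` with `∫ log max(|F|, |G|) ≤ K`; a set `T` of reals has
bounded companions if for every `B` some `L K` contains all elements of `T` below `B`.

The multiplicative monoid generated by the measures of these matrices and by any set `T` with bounded
companions has bounded companions.  Hence its closure consists of Mahler measures, it has a gap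
above `1`, and below every bound it has finite Cantor-Bendixson rank.

The companion of `χ_A` is, up to a common factor, the coefficient of `t ^ (n - r)` in
`det (z B (B - 1) + t (z - A))`, `r` the rank of `B (B - 1)`; the height of the pair is at most
`(9 / 2) log M(B)`.
-/

set_option autoImplicit false

namespace Pool.Agent.Results.MP_6d22ea_nt.AlmostNormalMatrices

open MvPolynomial Matrix

noncomputable section

/-- Value of an integer polynomial in `k` variables at the torus point
`(exp (2 π i t_1), …, exp (2 π i t_k))`. -/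
def value {k : ℕ} (F : MvPolynomial (Fin k) ℤ) (t : Fin k → ℝ) : ℂ :=
  eval (fun j : Fin k => Complex.exp (2 * (Real.pi : ℂ) * Complex.I * ((t j : ℝ) : ℂ)))
    (map (Int.castRingHom ℂ) F)

/-- The Mahler measure of an integer polynomial in `k` variables. -/
def mahler {k : ℕ} (F : MvPolynomial (Fin k) ℤ) : ℝ :=
  Real.exp (∫ t in Set.Icc (0 : Fin k → ℝ) 1, Real.log ‖value F t‖)

/-- The integral of `log max(|F|, |G|)` over the torus. -/
def pairHeight {k : ℕ} (F G : MvPolynomial (Fin k) ℤ) : ℝ :=
  ∫ t in Set.Icc (0 : Fin k → ℝ) 1, Real.log (max ‖value F t‖ ‖value G t‖)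

/-- The set of the Mahler measures of the nonzero integer polynomials in any number of variables. -/
def allMeasures : Set ℝ :=
  {x : ℝ | ∃ k : ℕ, 1 ≤ k ∧ ∃ F : MvPolynomial (Fin k) ℤ, F ≠ 0 ∧ x = mahler F}

/-- The Mahler measures of the nonzero polynomials `F` having a coprime companion `G ≠ 0` with
`∫ log max(|F|, |G|) ≤ K`. -/
def L (K : ℝ) : Set ℝ :=
  {x : ℝ | ∃ k : ℕ, 1 ≤ k ∧ ∃ F G : MvPolynomial (Fin k) ℤ, F ≠ 0 ∧ G ≠ 0 ∧ IsRelPrime F G ∧
    pairHeight F G ≤ K ∧ x = mahler F}

/-- For every `B` some `L K` contains all elements of `T` below `B`. -/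
def BoundedCompanions (T : Set ℝ) : Prop := ∀ B : ℝ, ∃ K : ℝ, T ∩ Set.Iio B ⊆ L K

/-- The Mahler measure of the characteristic polynomial of an integer matrix. -/
def charMeasure {n : ℕ} (A : Matrix (Fin n) (Fin n) ℤ) : ℝ :=
  (A.charpoly.map (Int.castRingHom ℂ)).mahlerMeasure

/-- `B = A^* A` for the adjoint `A^*` of `A` with respect to some inner product of `ℝ ^ n`: there is a
positive definite symmetric real matrix `H` (the Gram matrix) such that `H B = Aᵀ H A`. -/
def IsAdjointProduct {n : ℕ} (A B : Matrix (Fin n) (Fin n) ℤ) : Prop :=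
  ∃ H : Matrix (Fin n) (Fin n) ℝ, H.PosDef ∧
    H * B.map (Int.cast : ℤ → ℝ) = (A.map (Int.cast : ℤ → ℝ))ᵀ * H * A.map (Int.cast : ℤ → ℝ)

/-- The measures of the integer matrices `A`, of all sizes, with `M(A^* A) ≤ κ(M(A))`. -/
def matrixMeasures (κ : ℝ → ℝ) : Set ℝ :=
  {x : ℝ | ∃ (n : ℕ) (A B : Matrix (Fin n) (Fin n) ℤ), IsAdjointProduct A B ∧
    charMeasure B ≤ κ (charMeasure A) ∧ x = charMeasure A}

theorem result (κ : ℝ → ℝ) (hκ : Monotone κ) (T : Set ℝ) (hT : BoundedCompanions T) :
    BoundedCompanions (Submonoid.closure (T ∪ matrixMeasures κ) : Submonoid ℝ) ∧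
    closure ((Submonoid.closure (T ∪ matrixMeasures κ) : Submonoid ℝ) : Set ℝ) ⊆ allMeasures ∧
    (∃ δ : ℝ, 1 < δ ∧ ∀ x ∈ (Submonoid.closure (T ∪ matrixMeasures κ) : Submonoid ℝ),
      x = 1 ∨ δ ≤ x) ∧
    ∀ B : ℝ, ∃ m : ℕ, ∀ x ∈ derivedSet^[m]
      ((Submonoid.closure (T ∪ matrixMeasures κ) : Submonoid ℝ) : Set ℝ), B ≤ x := by
  have hB : Pool.Agent.TH845.KN.BC (matrixMeasures κ) := Pool.Agent.U865.SV.TT_LL κ hκ
  have h1 : Pool.Agent.TH845.KN.BC
      ((Submonoid.closure (T ∪ matrixMeasures κ) : Submonoid ℝ) : Set ℝ) :=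
    Pool.Agent.TH845.KN.BC_monoid (Pool.Agent.TH845.KN.BC.union hT hB)
  obtain ⟨h2, h3⟩ := Pool.Agent.W242.IM.closure_of_LL _ h1
  exact ⟨h1, h2, Pool.Agent.TH845.KN.gap_BC h1, h3⟩

end

end Pool.Agent.Results.MP_6d22ea_nt.AlmostNormalMatrices
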