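import Mathlib
import Pool.Agent.U218.PP.B

/-!
# Boyd's conjecture for polynomials with factors of small degree over composita `F ℚ^ab`

Let `F` be a finite or infinite Galois extension of `ℚ` whose Galois group has exponent dividing `m`
(not abelian in general), and let `E = F (μ_∞)`, that is `F ℚ^ab` by the theorem of Kronecker and
Weber.

There is an absolute constant `C` with the following property.  Let `ψ` be a function tending to
infinity, and `N` an integer.  Let `P` be the set of the Mahler measures of all irreducible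
integer polynomials `g` which have degree at most `N`, or have leading coefficient `1` or `-1` and, for
some `m` and some field `E` as above, a factor of degree `D ≥ 1` over `E` with
`ψ (n) (C m) ^ (26 m) D (1 + log D) ^ (4 m + 5) ≤ n`, where `n` is the degree of `g`.
(For every fixed `m` this holds for example if `D ≤ n / (log n) ^ (4 m + 6)` and `ψ (n) = c_m log n`.)

* The multiplicative monoid generated by `P` has only finitely many elements below every bound;
  in particular it is closed and discrete.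
* The monoid generated by `P` and by any set `T` of Mahler measures with bounded companions (of
  polynomials in any number of variables) has bounded companions.  Hence its closure consists of
  Mahler measures, it has a gap above `1`, and below every bound it has finite Cantor–Bendixson
  rank.

Method.  The relative Dobrowolski theorem over `F ℚ^ab` (energy inequality for several twisted copies
of an orbit, with a case distinction according to the ramification) shows that
`log M (g) ≥ n / ((C m) ^ (26 m) D (1 + log D) ^ (4 m + 5))`, so that the degrees of the `g` with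
`M (g)` below a bound are bounded.
-/

set_option autoImplicit false

universe u

namespace Pool.Agent.Results.MP_6d22ea_nt.RelativeDegree

open Polynomial

noncomputable section

/-- Value of an integer polynomial in `k` variables at the torus point
`(exp (2 π i t_1), …, exp (2 π i t_k))`. -/
def value {k : ℕ} (F : MvPolynomial (Fin k) ℤ) (t : Fin k → ℝ) : ℂ :=
  MvPolynomial.eval (fun j : Fin k => Complex.exp (2 * (Real.pi : ℂ) * Complex.I * ((t j : ℝ) : ℂ)))
    (MvPolynomial.map (Int.castRingHom ℂ) F)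

/-- The Mahler measure of an integer polynomial in `k` variables. -/
def mahler {k : ℕ} (F : MvPolynomial (Fin k) ℤ) : ℝ :=
  Real.exp (∫ t in Set.Icc (0 : Fin k → ℝ) 1, Real.log ‖value F t‖)

/-- The integral of `log max(|F|, |G|)` over the torus. -/
def pairHeight {k : ℕ} (F G : MvPolynomial (Fin k) ℤ) : ℝ :=
  ∫ t in Set.Icc (0 : Fin k → ℝ) 1, Real.log (max ‖value F t‖ ‖value G t‖)

/-- The set of the Mahler measures of the nonzero integer polynomials in any number of variables. -/
def allMeasures : Set ℝ :=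
  {x : ℝ | ∃ k : ℕ, 1 ≤ k ∧ ∃ F : MvPolynomial (Fin k) ℤ, F ≠ 0 ∧ x = mahler F}

/-- The Mahler measures of the nonzero polynomials `F` having a coprime companion `G ≠ 0` with
`∫ log max(|F|, |G|) ≤ K`. -/
def L (K : ℝ) : Set ℝ :=
  {x : ℝ | ∃ k : ℕ, 1 ≤ k ∧ ∃ F G : MvPolynomial (Fin k) ℤ, F ≠ 0 ∧ G ≠ 0 ∧ IsRelPrime F G ∧
    pairHeight F G ≤ K ∧ x = mahler F}

/-- For every `B` some `L K` contains all elements of `T` below `B`. -/
def BoundedCompanions (T : Set ℝ) : Prop := ∀ B : ℝ, ∃ K : ℝ, T ∩ Set.Iio B ⊆ L K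

/-- The Mahler measure of an integer polynomial in one variable. -/
def measure (F : ℤ[X]) : ℝ := (F.map (Int.castRingHom ℂ)).mahlerMeasure

/-- `E` is generated by roots of unity over a field `F` which is a finite or infinite Galois
extension of `ℚ` such that `σ ^ m = 1` for all `σ` in its Galois group. -/
def Composita (m : ℕ) (E : Type u) [Field E] : Prop :=
  ∃ (F : Type u) (_ : Field F) (_ : CharZero F) (_ : Algebra F E),
    (IsGalois ℚ F ∧ ∀ σ : F ≃ₐ[ℚ] F, σ ^ m = 1) ∧
    IntermediateField.adjoin F {ζ : E | ∃ k : ℕ, 0 < k ∧ ζ ^ k = 1} = ⊤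

/-- `g` has a factor of degree `D` over a field `E` with `Composita m E`. -/
def Factor (m : ℕ) (g : ℤ[X]) (D : ℕ) : Prop :=
  ∃ (E : Type u) (_ : Field E), Composita m E ∧
    ∃ h : E[X], h ∣ g.map (Int.castRingHom E) ∧ h.natDegree = D

/-- For some `m` and `D ≥ 1`, `g` has a factor of degree `D` over a field `E` with `Composita m E`,
and the degree `n` of `g` is at least `ψ (n) (C m) ^ (26 m) D (1 + log D) ^ (4 m + 5)`. -/
def SmallFactor (C : ℝ) (ψ : ℕ → ℝ) (g : ℤ[X]) : Prop :=
  ∃ m D : ℕ, 0 < m ∧ 0 < D ∧ Factor.{u} m g D ∧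
    ψ g.natDegree * ((C * m) ^ (26 * m) * D * (1 + Real.log D) ^ (4 * m + 5)) ≤ g.natDegree

/-- The Mahler measures of the irreducible integer polynomials which have degree at most `N`, or have
leading coefficient `1` or `-1` and satisfy `SmallFactor C ψ`. -/
def classMeasures (C : ℝ) (ψ : ℕ → ℝ) (N : ℕ) : Set ℝ :=
  {x : ℝ | ∃ g : ℤ[X], Irreducible g ∧
    (g.natDegree ≤ N ∨ (|g.leadingCoeff| = 1 ∧ SmallFactor.{u} C ψ g)) ∧ x = measure g}

lemma one_le_measure {g : ℤ[X]} (hg : g ≠ 0) : 1 ≤ measure g :=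
  Pool.Agent.H261R2.CM.I1_one_le_m1 hg

theorem lower_bound : ∃ C : ℝ, 1 ≤ C ∧ ∀ (ψ : ℕ → ℝ) (g : ℤ[X]), Irreducible g →
    |g.leadingCoeff| = 1 → SmallFactor.{u} C ψ g → 1 < measure g →
      ψ g.natDegree ≤ Real.log (measure g) := by
  obtain ⟨C, hC, h⟩ := Pool.Agent.U218.RA.final.{u}
  refine ⟨C, hC, ?_⟩
  rintro ψ g hg hlc ⟨m, D, hm, hD, ⟨E, _, ⟨F, _, _, _, hF, hadj⟩, q, hq, rfl⟩, hψ⟩ hM
  have : CharZero E := charZero_of_injective_algebraMap (algebraMap F E).injective
  obtain ⟨F', hF1, hF2, hF3⟩ := Pool.Agent.U218.RA.bridge hF.1 hF.2 hadj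
  have hC0 : 0 < C := by linarith
  have hm0 : (0 : ℝ) < m := by exact_mod_cast hm
  have hD0 : (1 : ℝ) ≤ q.natDegree := by exact_mod_cast hD
  have hl : 0 ≤ Real.log (q.natDegree : ℝ) := Real.log_nonneg hD0
  have hpos : 0 < (C * m) ^ (26 * m) * (q.natDegree : ℝ) *
      (1 + Real.log q.natDegree) ^ (4 * m + 5) := by positivity
  have key : ∀ g : ℤ[X], Irreducible g → 1 < measure g → g.Monic →
      q ∣ g.map (Int.castRingHom E) →
      ψ g.natDegree * ((C * m) ^ (26 * m) * q.natDegree *
        (1 + Real.log q.natDegree) ^ (4 * m + 5)) ≤ g.natDegree →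
      ψ g.natDegree ≤ Real.log (measure g) := by
    intro g hg hM hmon hq hψ
    have h1 := (h m hm g hg hM E F' hF2 hF3 q hq hD).1 hmon
    have h2 : Real.exp (g.natDegree / ((C * m) ^ (26 * m) * q.natDegree *
        (1 + Real.log q.natDegree) ^ (4 * m + 5))) ≤ measure g := h1
    rw [Real.le_log_iff_exp_le (by linarith)]
    refine le_trans (Real.exp_le_exp.mpr ?_) h2
    rwa [le_div_iff₀ hpos]
  rcases (abs_eq (zero_le_one' ℤ)).mp hlc with h3 | h3
  · exact key g hg hM h3 hq hψ
  · have hneg : measure (-g) = measure g := Pool.Agent.U218.LD.MM_neg' g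
    have h4 := key (-g) ((Associated.irreducible_iff
      (Associated.neg_left (Associated.refl g))).mpr hg) (by rw [hneg]; exact hM)
      (by rw [Monic, leadingCoeff_neg, h3]; rfl)
      (by rw [Polynomial.map_neg]; exact (dvd_neg).2 hq)
      (by rw [natDegree_neg]; exact hψ)
    rwa [hneg, natDegree_neg] at h4

/-- **Boyd's conjecture for polynomials with factors of small degree over composita `F ℚ^ab`.** -/
theorem result : ∃ C : ℝ, 1 ≤ C ∧
    ∀ ψ : ℕ → ℝ, Filter.Tendsto ψ Filter.atTop Filter.atTop → ∀ N : ℕ,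
      (∀ B : ℝ, ((Submonoid.closure (classMeasures.{u} C ψ N) : Set ℝ) ∩ Set.Iic B).Finite) ∧
      IsClosed (Submonoid.closure (classMeasures.{u} C ψ N) : Set ℝ) ∧
      ∀ T : Set ℝ, BoundedCompanions T →
        BoundedCompanions (Submonoid.closure (T ∪ classMeasures.{u} C ψ N) : Set ℝ) ∧
        closure (Submonoid.closure (T ∪ classMeasures.{u} C ψ N) : Set ℝ) ⊆ allMeasures ∧
        (∃ δ : ℝ, 1 < δ ∧ ∀ x ∈ Submonoid.closure (T ∪ classMeasures.{u} C ψ N),
          x = 1 ∨ δ ≤ x) ∧
        ∀ B : ℝ, ∃ r : ℕ, ∀ x ∈ derivedSet^[r]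
          (Submonoid.closure (T ∪ classMeasures.{u} C ψ N) : Set ℝ), B ≤ x := by
  obtain ⟨C, hC, h⟩ := lower_bound.{u}
  refine ⟨C, hC, fun ψ hψ N => ?_⟩
  have h1 : ∀ x ∈ classMeasures.{u} C ψ N, 1 ≤ x := by
    rintro x ⟨g, hg, _, rfl⟩
    exact one_le_measure hg.ne_zero
  have hfin : ∀ B : ℝ, (classMeasures.{u} C ψ N ∩ Set.Iic B).Finite := by
    intro B
    obtain ⟨n₀, hn₀⟩ := Filter.eventually_atTop.mp (hψ.eventually_gt_atTop (Real.log B))
    have h2 := (Polynomial.finite_mahlerMeasure_le (max N n₀) (Real.toNNReal B)).image measure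
    refine (h2.union (Set.finite_singleton (1 : ℝ))).subset ?_
    rintro x ⟨⟨g, hg, hgN, rfl⟩, hB⟩
    have hB' : measure g ≤ B := hB
    by_cases hM : 1 < measure g
    · left
      refine ⟨g, ⟨?_, hB'.trans (Real.le_coe_toNNReal B)⟩, rfl⟩
      rcases hgN with hN | ⟨hlc, hs⟩
      · exact hN.trans (le_max_left _ _)
      · by_contra hcon
        push Not at hcon
        have h3 := h ψ g hg hlc hs hM
        have h4 := hn₀ g.natDegree ((le_max_right _ _).trans hcon.le)
        have h5 : Real.log (measure g) ≤ Real.log B := Real.log_le_log (by linarith) hB'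
        linarith
    · right
      have := one_le_measure hg.ne_zero
      exact le_antisymm (not_lt.mp hM) this
  have hfin' := Pool.Agent.U218.PP.monoid_finite h1 hfin
  refine ⟨hfin', Pool.Agent.U218.PP.isClosed_of_finite_below hfin', fun T hT => ?_⟩
  have hBC : Pool.Agent.TH845.KN.BC (classMeasures.{u} C ψ N) := by
    refine Pool.Agent.U218.PP.BC_of_finite ?_ hfin
    rintro x ⟨g, hg, _, rfl⟩
    exact ⟨g, hg.ne_zero, rfl⟩
  have h2 : Pool.Agent.TH845.KN.BC
      ((Submonoid.closure (T ∪ classMeasures.{u} C ψ N) : Submonoid ℝ) : Set ℝ) :=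
    Pool.Agent.TH845.KN.BC_monoid (Pool.Agent.TH845.KN.BC.union hT hBC)
  obtain ⟨h3, h4⟩ := Pool.Agent.W242.IM.closure_of_LL _ h2
  exact ⟨h2, h3, Pool.Agent.TH845.KN.gap_BC h2, h4⟩

end

end Pool.Agent.Results.MP_6d22ea_nt.RelativeDegree
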