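import Mathlib
import Pool.Agent.Y947.RL2.All2
import Pool.Agent.Y947.RL2.Alg
import Pool.Agent.Y433.RL.Hgt
import Pool.Agent.Y858.RL.Rep
import Pool.Agent.Y235.RL.Cnj
import Pool.Agent.Y932.RL.Tow
import Pool.Agent.U218.PP.B

/-!
# Boyd's conjecture for polynomials with small relative degree and mean over `ℚ(μ_∞)`

Let `g` be an irreducible integer polynomial of degree `n` with leading coefficient `1` or `-1`, and
`z` a complex root of `g`. The minimal polynomial of `z` over the field `ℚ(μ_∞)` of all roots of unity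
is `F(ω₀, X)` for some monic `F ∈ ℤ[T][X]` of some degree `D` and some primitive `m`-th root of unity
`ω₀`. Let `M` be the mean, over the primitive `m`-th roots of unity `ω`, of the mean of `log⁺ |F(ω, x)|`
over the unit circle.

Let `ψ` be a function tending to infinity, `N` an integer, and let `P` be the set of the Mahler
measures of all irreducible integer polynomials `g` which have degree `n ≤ N`, or have leading
coefficient `1` or `-1` and, for some `z`, `m`, `ω₀`, `F` as above, `ψ (n) D (1 + M) ^ 6 ≤ n`.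
(For example all irreducible norms `g = ∏ F(ω, X)`, `ω` running over the primitive `m`-th roots of
unity, where `F` has bounded length, `g` has degree `φ(m) D`, and `ψ (φ(m) D) ≤ c φ(m)`.)

* The multiplicative monoid generated by `P` has only finitely many elements below every bound;
  in particular it is closed and discrete.
* The monoid generated by `P` and by any set `T` of Mahler measures with bounded companions (of
  polynomials in any number of variables) has bounded companions.  Hence its closure consists of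
  Mahler measures, it has a gap above `1`, and below every bound it has finite Cantor–Bendixson
  rank.

Method.  The library theorem of the starting result `MP_187c26_nt.RelativeLehmer` (by the authors
named there) shows that `log M (g) ≥ c n / (D (1 + M) ^ 6)`, so that the degrees of the `g` with
`M (g)` below a bound are bounded.
-/

set_option autoImplicit false

namespace Pool.Agent.Results.MP_6d22ea_nt.RelativeMean

open Polynomial

noncomputable section

/-- Value of an integer polynomial in `k` variables at the torus point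
`(exp (2 π i t_1), …, exp (2 π i t_k))`. -/
def value {k : ℕ} (F : MvPolynomial (Fin k) ℤ) (t : Fin k → ℝ) : ℂ :=
  MvPolynomial.eval (fun j : Fin k => Complex.exp (2 * (Real.pi : ℂ) * Complex.I * ((t j : ℝ) : ℂ)))
    (MvPolynomial.map (Int.castRingHom ℂ) F)

/-- The Mahler measure of an integer polynomial in `k` variables. -/
def mahler {k : ℕ} (F : MvPolynomial (Fin k) ℤ) : ℝ :=
  Real.exp (∫ t in Set.Icc (0 : Fin k → ℝ) 1, Real.log ‖value F t‖)

/-- The integral of `log max(|F|, |G|)` over the torus. -/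
def pairHeight {k : ℕ} (F G : MvPolynomial (Fin k) ℤ) : ℝ :=
  ∫ t in Set.Icc (0 : Fin k → ℝ) 1, Real.log (max ‖value F t‖ ‖value G t‖)

/-- The set of the Mahler measures of the nonzero integer polynomials in any number of variables. -/
def allMeasures : Set ℝ :=
  {x : ℝ | ∃ k : ℕ, 1 ≤ k ∧ ∃ F : MvPolynomial (Fin k) ℤ, F ≠ 0 ∧ x = mahler F}

/-- The Mahler measures of the nonzero polynomials `F` having a coprime companion `G ≠ 0` with
`∫ log max(|F|, |G|) ≤ K`. -/
def L (K : ℝ) : Set ℝ :=
  {x : ℝ | ∃ k : ℕ, 1 ≤ k ∧ ∃ F G : MvPolynomial (Fin k) ℤ, F ≠ 0 ∧ G ≠ 0 ∧ IsRelPrime F G ∧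
    pairHeight F G ≤ K ∧ x = mahler F}

/-- For every `B` some `L K` contains all elements of `T` below `B`. -/
def BoundedCompanions (T : Set ℝ) : Prop := ∀ B : ℝ, ∃ K : ℝ, T ∩ Set.Iio B ⊆ L K

/-- The Mahler measure of an integer polynomial in one variable. -/
def measure (F : ℤ[X]) : ℝ := (F.map (Int.castRingHom ℂ)).mahlerMeasure

/-- the field `ℚ(μ_∞) ⊆ ℂ` generated by all roots of unity -/
def QAb : IntermediateField ℚ ℂ :=
  IntermediateField.adjoin ℚ {z : ℂ | ∃ n : ℕ, 0 < n ∧ z ^ n = 1}

/-- the polynomial `F(ω, X)`, for `F ∈ ℤ[T][X]` -/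
def spec {A : Type*} [CommRing A] (ω : A) (F : ℤ[X][X]) : A[X] :=
  F.map (aeval ω : ℤ[X] →ₐ[ℤ] A).toRingHom

/-- the mean over the primitive `m`-th roots of unity `ω` of the mean of `log⁺ |F(ω, x)|` over the
unit circle -/
def logPlus (m : ℕ) (F : ℤ[X][X]) : ℝ :=
  (∑ ω ∈ primitiveRoots m ℂ,
    Real.circleAverage (fun x : ℂ => Real.posLog ‖(spec ω F).eval x‖) 0 1) / Nat.totient m

/-- `g` has a root `z` whose minimal polynomial over `ℚ(μ_∞)` is `F(ω₀, X)`, with `ω₀` a primitive
`m`-th root of unity and `F ∈ ℤ[T][X]` monic, such that `ψ (n) D (1 + M) ^ 6 ≤ n`, where `n` and `D`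
are the degrees of `g` and `F` and `M` is `logPlus m F` -/
def SmallMean (ψ : ℕ → ℝ) (g : ℤ[X]) : Prop :=
  ∃ (z : ℂ) (m : ℕ) (ω₀ : QAb) (F : ℤ[X][X]), aeval z g = 0 ∧ 0 < m ∧ IsPrimitiveRoot ω₀ m ∧
    F.Monic ∧ minpoly QAb z = spec ω₀ F ∧
    ψ g.natDegree * (F.natDegree * (1 + logPlus m F) ^ 6) ≤ g.natDegree

/-- The Mahler measures of the irreducible integer polynomials which have degree at most `N`, or have
leading coefficient `1` or `-1` and satisfy `SmallMean ψ`. -/
def classMeasures (ψ : ℕ → ℝ) (N : ℕ) : Set ℝ :=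
  {x : ℝ | ∃ g : ℤ[X], Irreducible g ∧
    (g.natDegree ≤ N ∨ (|g.leadingCoeff| = 1 ∧ SmallMean ψ g)) ∧ x = measure g}

lemma one_le_measure {g : ℤ[X]} (hg : g ≠ 0) : 1 ≤ measure g :=
  Pool.Agent.H261R2.CM.I1_one_le_m1 hg

lemma logPlus_nonneg (m : ℕ) (F : ℤ[X][X]) : 0 ≤ logPlus m F := by
  unfold logPlus
  refine div_nonneg (Finset.sum_nonneg fun ω _ => ?_) (Nat.cast_nonneg _)
  exact Real.circleAverage_nonneg_of_nonneg fun x _ => Real.posLog_nonneg

lemma deg_congr {E E' : IntermediateField ℚ ℂ} (h : E = E') (z : ℂ) :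
    (minpoly E z).natDegree = (minpoly E' z).natDegree := by
  subst h
  rfl

lemma measure_le_one {g : ℤ[X]} (hmon : g.Monic) {z : ℂ} (hmin : minpoly ℤ z = g)
    (hz : IsIntegral ℤ z) {k : ℕ} (hk : 0 < k) (h : z ^ (k + 1) = z) : measure g ≤ 1 := by
  have hdvd : g ∣ X ^ (k + 1) - X := by
    rw [← hmin]
    apply minpoly.isIntegrallyClosed_dvd hz
    rw [map_sub, map_pow, aeval_X, h, sub_self]
  unfold measure
  rw [mahlerMeasure_eq_leadingCoeff_mul_prod_roots, (hmon.map _).leadingCoeff, norm_one, one_mul]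
  refine le_of_eq (Multiset.prod_eq_one ?_)
  intro x hx
  rw [Multiset.mem_map] at hx
  obtain ⟨r, hr, rfl⟩ := hx
  have h1 : (g.map (Int.castRingHom ℂ)).IsRoot r := isRoot_of_mem_roots hr
  have h2 : ((X ^ (k + 1) - X : ℤ[X]).map (Int.castRingHom ℂ)).IsRoot r :=
    h1.dvd (Polynomial.map_dvd _ hdvd)
  have h3 : r ^ (k + 1) = r := by
    have h4 : eval r ((X ^ (k + 1) - X : ℤ[X]).map (Int.castRingHom ℂ)) = 0 := h2
    rw [Polynomial.map_sub, Polynomial.map_pow, Polynomial.map_X, eval_sub, eval_pow,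
      eval_X] at h4
    exact sub_eq_zero.mp h4
  by_cases hr0 : r = 0
  · rw [hr0, norm_zero]
    exact max_eq_left zero_le_one
  · have h5 : r ^ k = 1 := by
      have : r ^ k * r = 1 * r := by rw [← pow_succ, h3, one_mul]
      exact mul_right_cancel₀ hr0 this
    have h6 : ‖r‖ = 1 := by
      have h7 : ‖r‖ ^ k = 1 := by rw [← norm_pow, h5, norm_one]
      exact (pow_eq_one_iff_of_nonneg (norm_nonneg r) hk.ne').mp h7
    rw [h6, max_self]

theorem lower_bound : ∃ c : ℝ, 0 < c ∧ ∀ (ψ : ℕ → ℝ) (g : ℤ[X]), Irreducible g →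
    |g.leadingCoeff| = 1 → SmallMean ψ g → 1 < measure g →
      c * ψ g.natDegree ≤ Real.log (measure g) := by
  obtain ⟨c, hc, h⟩ := Y947.RL2.alg Y947.RL2.t_fin (Y433.RL.hgt_mean Y65.RL.tr) Y858.RL.rep
    Y235.RL.Cnj.cnj (fun K _ z hz => Y932.RL.Tow.tow K z hz)
  refine ⟨c, hc, ?_⟩
  have key : ∀ (x : ℝ) (g : ℤ[X]), Irreducible g → g.Monic →
      (∃ (z : ℂ) (m : ℕ) (ω₀ : QAb) (F : ℤ[X][X]), aeval z g = 0 ∧ 0 < m ∧
        IsPrimitiveRoot ω₀ m ∧ F.Monic ∧ minpoly QAb z = spec ω₀ F ∧
        x * (F.natDegree * (1 + logPlus m F) ^ 6) ≤ g.natDegree) →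
      1 < measure g → c * x ≤ Real.log (measure g) := by
    rintro x g hg hmon ⟨z, m, ω₀, F, hgz, hm, hω, hF, heq, hψ⟩ hM
    have hz : IsIntegral ℤ z := ⟨g, hmon, by rwa [← aeval_def]⟩
    have hmin : minpoly ℤ z = g := by
      have h1 : minpoly ℤ z ∣ g := minpoly.isIntegrallyClosed_dvd hz hgz
      have h2 : Associated (minpoly ℤ z) g :=
        (minpoly.irreducible hz).associated_of_dvd hg h1
      exact eq_of_monic_of_associated (minpoly.monic hz) hmon h2
    have hlog : 0 < Real.log (measure g) := Real.log_pos hM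
    have hz0 : z ≠ 0 := by
      intro h0
      have := measure_le_one hmon hmin hz one_pos (by rw [h0]; norm_num)
      linarith
    have hzr : ∀ k : ℕ, 0 < k → z ^ k ≠ 1 := by
      intro k hk h0
      have := measure_le_one hmon hmin hz hk (by rw [pow_succ, h0, one_mul])
      linarith
    have h3 : c / Module.finrank ℚ (⊥ : IntermediateField ℚ ℂ) / (1 + logPlus m F) ^ 6 ≤
        (minpoly (⊥ ⊔ QAb : IntermediateField ℚ ℂ) z).natDegree *
          (Real.log (((minpoly ℤ z).map (Int.castRingHom ℂ)).mahlerMeasure) /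
            (minpoly ℤ z).natDegree) :=
      (h z hz hz0 hzr).2 m ω₀ F hm hω hF heq.symm ⊥
    rw [deg_congr (bot_sup_eq QAb) z, heq, hmin, IntermediateField.finrank_bot, Nat.cast_one,
      div_one] at h3
    have hd : (spec ω₀ F).natDegree = F.natDegree := hF.natDegree_map _
    rw [hd] at h3
    have hL := logPlus_nonneg m F
    have hn : 0 < g.natDegree := by
      rw [← hmin]
      exact minpoly.natDegree_pos hz
    have hn' : (0 : ℝ) < g.natDegree := by exact_mod_cast hn
    have hp : (0 : ℝ) < (1 + logPlus m F) ^ 6 := by positivity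
    have hD0 : 0 < F.natDegree := by
      rw [← hd, ← heq]
      exact minpoly.natDegree_pos hz.tower_top
    have hD : (0 : ℝ) < F.natDegree := by exact_mod_cast hD0
    have h4 : c * g.natDegree ≤
        (F.natDegree * (1 + logPlus m F) ^ 6) * Real.log (measure g) := by
      rw [div_le_iff₀ hp] at h3
      have h5 : (F.natDegree : ℝ) * (Real.log (((g).map (Int.castRingHom ℂ)).mahlerMeasure) /
          g.natDegree) * (1 + logPlus m F) ^ 6 * g.natDegree =
          (F.natDegree * (1 + logPlus m F) ^ 6) * Real.log (measure g) := by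
        unfold measure
        field_simp
      rw [← h5]
      exact mul_le_mul_of_nonneg_right h3 hn'.le
    have h6 : (F.natDegree * (1 + logPlus m F) ^ 6) * (c * x) ≤
        (F.natDegree * (1 + logPlus m F) ^ 6) * Real.log (measure g) := by
      refine le_trans ?_ h4
      have := mul_le_mul_of_nonneg_left hψ hc.le
      linarith
    exact le_of_mul_le_mul_left h6 (mul_pos hD hp)
  intro ψ g hg hlc hs hM
  rcases (abs_eq (zero_le_one' ℤ)).mp hlc with h3 | h3
  · exact key _ g hg h3 hs hM
  · have hneg : measure (-g) = measure g := Pool.Agent.U218.LD.MM_neg' g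
    have h4 := key (ψ g.natDegree) (-g) ((Associated.irreducible_iff
      (Associated.neg_left (Associated.refl g))).mpr hg)
      (by rw [Monic, leadingCoeff_neg, h3]; rfl)
      (by
        obtain ⟨z, m, ω₀, F, e1, e2, e3, e4, e5, e6⟩ := hs
        refine ⟨z, m, ω₀, F, by rw [map_neg, e1, neg_zero], e2, e3, e4, e5, ?_⟩
        rw [natDegree_neg]
        exact e6) (by rw [hneg]; exact hM)
    rwa [hneg] at h4

/-- **Boyd's conjecture for polynomials with small relative degree and mean over `ℚ(μ_∞)`.** -/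
theorem result :
    ∀ ψ : ℕ → ℝ, Filter.Tendsto ψ Filter.atTop Filter.atTop → ∀ N : ℕ,
      (∀ B : ℝ, ((Submonoid.closure (classMeasures ψ N) : Set ℝ) ∩ Set.Iic B).Finite) ∧
      IsClosed (Submonoid.closure (classMeasures ψ N) : Set ℝ) ∧
      ∀ T : Set ℝ, BoundedCompanions T →
        BoundedCompanions (Submonoid.closure (T ∪ classMeasures ψ N) : Set ℝ) ∧
        closure (Submonoid.closure (T ∪ classMeasures ψ N) : Set ℝ) ⊆ allMeasures ∧
        (∃ δ : ℝ, 1 < δ ∧ ∀ x ∈ Submonoid.closure (T ∪ classMeasures ψ N),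
          x = 1 ∨ δ ≤ x) ∧
        ∀ B : ℝ, ∃ r : ℕ, ∀ x ∈ derivedSet^[r]
          (Submonoid.closure (T ∪ classMeasures ψ N) : Set ℝ), B ≤ x := by
  obtain ⟨c, hc, h⟩ := lower_bound
  intro ψ hψ N
  have h1 : ∀ x ∈ classMeasures ψ N, 1 ≤ x := by
    rintro x ⟨g, hg, _, rfl⟩
    exact one_le_measure hg.ne_zero
  have hfin : ∀ B : ℝ, (classMeasures ψ N ∩ Set.Iic B).Finite := by
    intro B
    obtain ⟨n₀, hn₀⟩ := Filter.eventually_atTop.mp (hψ.eventually_gt_atTop (Real.log B / c))
    have h2 := (Polynomial.finite_mahlerMeasure_le (max N n₀) (Real.toNNReal B)).image measure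
    refine (h2.union (Set.finite_singleton (1 : ℝ))).subset ?_
    rintro x ⟨⟨g, hg, hgN, rfl⟩, hB⟩
    have hB' : measure g ≤ B := hB
    by_cases hM : 1 < measure g
    · left
      refine ⟨g, ⟨?_, hB'.trans (Real.le_coe_toNNReal B)⟩, rfl⟩
      rcases hgN with hN | ⟨hlc, hs⟩
      · exact hN.trans (le_max_left _ _)
      · by_contra hcon
        push Not at hcon
        have h3 := h ψ g hg hlc hs hM
        have h4 := hn₀ g.natDegree ((le_max_right _ _).trans hcon.le)
        have h5 : Real.log (measure g) ≤ Real.log B := Real.log_le_log (by linarith) hB'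
        rw [div_lt_iff₀ hc] at h4
        linarith
    · right
      have := one_le_measure hg.ne_zero
      exact le_antisymm (not_lt.mp hM) this
  have hfin' := Pool.Agent.U218.PP.monoid_finite h1 hfin
  refine ⟨hfin', Pool.Agent.U218.PP.isClosed_of_finite_below hfin', fun T hT => ?_⟩
  have hBC : Pool.Agent.TH845.KN.BC (classMeasures ψ N) := by
    refine Pool.Agent.U218.PP.BC_of_finite ?_ hfin
    rintro x ⟨g, hg, _, rfl⟩
    exact ⟨g, hg.ne_zero, rfl⟩
  have h2 : Pool.Agent.TH845.KN.BC
      ((Submonoid.closure (T ∪ classMeasures ψ N) : Submonoid ℝ) : Set ℝ) :=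
    Pool.Agent.TH845.KN.BC_monoid (Pool.Agent.TH845.KN.BC.union hT hBC)
  obtain ⟨h3, h4⟩ := Pool.Agent.W242.IM.closure_of_LL _ h2
  exact ⟨h2, h3, Pool.Agent.TH845.KN.gap_BC h2, h4⟩

end

end Pool.Agent.Results.MP_6d22ea_nt.RelativeMean
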