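import Pool.Agent.U72.NP.Boyd

/-!
# Boyd's conjecture and the discrepancy between the zeros of two integer polynomials

For `F ∈ ℤ[X]` of degree `n` let `N_F(x)` be the number of the complex zeros (on and off the unit
circle, with multiplicity) with argument larger than `x` turns, `0 ≤ x ≤ 1`. Let `κ` be a monotone
function. We consider the following sets of Mahler measures.

* `uniformMeasures κ`: the measures `x = M(F)` of all `F` with `F(0) ≠ 0` whose zeros have angular
  discrepancy at most `κ(x)` from the uniform distribution, that is the root mean square of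
  `N_F(t) - n (1 - t) - b` is at most `κ(x)` for some shift `b`. (It is not divided by `n`.)
* `pairMeasures κ`: the measures `x` of `F = F₁ / gcd(F₁, G₁)`, for all `F₁`, `G₁` not vanishing at `0`
  with `M(G₁) ≤ κ(x)`, `|deg F₁ - deg G₁| ≤ κ(x)` whose zeros have mean square discrepancy at most
  `κ(x)` from each other.
* `isometryMeasures κ`: the same for the characteristic polynomials `F₁`, `G₁` of two isometries
  `A`, `B` of a nondegenerate Hermitian form, positive definite on a subspace of codimension `p`, with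
  `p + rank (A - B) ≤ κ(x)`.

Most of these polynomials (for example in the third set over `ℝ`) are self-reciprocal.

`L K` is the set of the Mahler measures of the nonzero integer polynomials `F` (in any number of
variables) having a coprime companion `G` with `∫ log max(|F|, |G|) ≤ K`; a set `T` of reals has
bounded companions if for every `B` some `L K` contains all elements of `T` below `B`.

The multiplicative monoid generated by the three sets and by any set `T` with bounded companions has
bounded companions. Hence its closure consists of Mahler measures, it has a gap above `1`, and below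
every bound it has finite Cantor-Bendixson rank.

Method. If all the zeros are projected radially to the circle, `∫ log max(|F|, |G|)` changes by at most
twice the larger `log M`, and then `log |F / G|` is conjugate to `π (N_F - N_G)`.
-/

set_option autoImplicit false

namespace Pool.Agent.Results.MP_6d22ea_nt.ZeroDiscrepancy

open Polynomial Matrix

noncomputable section

/-- Value of an integer polynomial in `k` variables at the torus point
`(exp (2 π i t_1), …, exp (2 π i t_k))`. -/
def value {k : ℕ} (F : MvPolynomial (Fin k) ℤ) (t : Fin k → ℝ) : ℂ :=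
  MvPolynomial.eval (fun j : Fin k => Complex.exp (2 * (Real.pi : ℂ) * Complex.I * ((t j : ℝ) : ℂ)))
    (MvPolynomial.map (Int.castRingHom ℂ) F)

/-- The Mahler measure of an integer polynomial in `k` variables. -/
def mahler {k : ℕ} (F : MvPolynomial (Fin k) ℤ) : ℝ :=
  Real.exp (∫ t in Set.Icc (0 : Fin k → ℝ) 1, Real.log ‖value F t‖)

/-- The integral of `log max(|F|, |G|)` over the torus. -/
def pairHeight {k : ℕ} (F G : MvPolynomial (Fin k) ℤ) : ℝ :=
  ∫ t in Set.Icc (0 : Fin k → ℝ) 1, Real.log (max ‖value F t‖ ‖value G t‖)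

/-- The set of the Mahler measures of the nonzero integer polynomials in any number of variables. -/
def allMeasures : Set ℝ :=
  {x : ℝ | ∃ k : ℕ, 1 ≤ k ∧ ∃ F : MvPolynomial (Fin k) ℤ, F ≠ 0 ∧ x = mahler F}

/-- The Mahler measures of the nonzero polynomials `F` having a coprime companion `G ≠ 0` with
`∫ log max(|F|, |G|) ≤ K`. -/
def L (K : ℝ) : Set ℝ :=
  {x : ℝ | ∃ k : ℕ, 1 ≤ k ∧ ∃ F G : MvPolynomial (Fin k) ℤ, F ≠ 0 ∧ G ≠ 0 ∧ IsRelPrime F G ∧
    pairHeight F G ≤ K ∧ x = mahler F}

/-- For every `B` some `L K` contains all elements of `T` below `B`. -/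
def BoundedCompanions (T : Set ℝ) : Prop := ∀ B : ℝ, ∃ K : ℝ, T ∩ Set.Iio B ⊆ L K

/-- The Mahler measure of an integer polynomial in one variable. -/
def measure (F : ℤ[X]) : ℝ := (F.map (Int.castRingHom ℂ)).mahlerMeasure

/-- The argument of a complex number in turns, in the interval `[0, 1)`. -/
def turn (z : ℂ) : ℝ := Int.fract (Complex.arg z / (2 * Real.pi))

/-- The number of the complex zeros of `F`, counted with multiplicity, whose argument is larger than
`x` turns. -/
def above (F : ℤ[X]) (x : ℝ) : ℕ :=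
  ((F.map (Int.castRingHom ℂ)).roots.filter (fun z => x < turn z)).card

/-- The measures `x = M(F)` of the polynomials `F` whose zeros have mean square discrepancy at most
`κ(x)` from the uniform distribution, for some shift `b`. -/
def uniformMeasures (κ : ℝ → ℝ) : Set ℝ :=
  {x : ℝ | ∃ (F : ℤ[X]) (b : ℝ), F.coeff 0 ≠ 0 ∧
    Real.sqrt (∫ t in (0:ℝ)..1, ((above F t : ℝ) - F.natDegree * (1 - t) - b) ^ 2) ≤ κ x ∧
    x = measure F}

/-- The measures `x = M(F)`, where `F` is coprime to `G`, for some `D` the zeros of `D F` and `D G` have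
mean square discrepancy at most `κ(x)`, up to a shift `b`, `M(D G) ≤ κ(x)`, and the degrees of `F` and
`G` differ by at most `κ(x)`. -/
def pairMeasures (κ : ℝ → ℝ) : Set ℝ :=
  {x : ℝ | ∃ (D F G : ℤ[X]) (b : ℝ), (D * F).coeff 0 ≠ 0 ∧ (D * G).coeff 0 ≠ 0 ∧ IsRelPrime F G ∧
    |(F.natDegree : ℝ) - G.natDegree| ≤ κ x ∧
    Real.sqrt (∫ t in (0:ℝ)..1, ((above (D * F) t : ℝ) - above (D * G) t - b) ^ 2) ≤ κ x ∧
    measure (D * G) ≤ κ x ∧ x = measure F}

/-- `S` is a nondegenerate Hermitian form, positive definite on a complex subspace of codimension at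
most `p`. -/
structure NearDefinite {n : ℕ} (S : Matrix (Fin n) (Fin n) ℂ) (p : ℕ) : Prop where
  hermitian : Sᴴ = S
  nondegenerate : S.det ≠ 0
  positive : ∃ W : Submodule ℂ (Fin n → ℂ), n ≤ Module.finrank ℂ W + p ∧
    ∀ x ∈ W, x ≠ 0 → 0 < (star x ⬝ᵥ (S *ᵥ x)).re

/-- `A` is an isometry of the form `S` with characteristic polynomial `F` with integer
coefficients. -/
structure IntegralIsometry {n : ℕ} (S A : Matrix (Fin n) (Fin n) ℂ) (F : ℤ[X]) : Prop where
  isometry : Aᴴ * S * A = S
  charpoly : F.map (Int.castRingHom ℂ) = A.charpoly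

/-- The measures `x = M(F)`, where `F` is coprime to `G`, for some `D` the polynomials `D F` and `D G` are
the characteristic polynomials of isometries `A` and `B` of a form with `p` as above,
`p + rank (A - B) ≤ κ(x)` and `M(D G) ≤ κ(x)`. -/
def isometryMeasures (κ : ℝ → ℝ) : Set ℝ :=
  {x : ℝ | ∃ (n p : ℕ) (S A B : Matrix (Fin n) (Fin n) ℂ) (D F G : ℤ[X]), NearDefinite S p ∧
    IntegralIsometry S A (D * F) ∧ IntegralIsometry S B (D * G) ∧ IsRelPrime F G ∧
    (p : ℝ) + (A - B).rank ≤ κ x ∧ measure (D * G) ≤ κ x ∧ x = measure F}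

/-- The three sets together. -/
def classMeasures (κ : ℝ → ℝ) : Set ℝ :=
  uniformMeasures κ ∪ pairMeasures κ ∪ isometryMeasures κ

lemma uniform_BC (κ : ℝ → ℝ) (hκ : Monotone κ) : Pool.Agent.TH845.KN.BC (uniformMeasures κ) := by
  have h : Monotone fun x => 6 * (1 + κ x) := fun x y hxy => by
    have := hκ hxy
    dsimp only
    linarith
  intro B
  obtain ⟨K, hK⟩ := Pool.Agent.U72.NP.HM_BC _ h B
  refine ⟨K, ?_⟩
  rintro x ⟨⟨F, b, hF, hd, rfl⟩, hx⟩
  exact hK ⟨Pool.Agent.U72.NP.HM_uniform hF hd, hx⟩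

lemma pair_BC (κ : ℝ → ℝ) (hκ : Monotone κ) : Pool.Agent.TH845.KN.BC (pairMeasures κ) := by
  have h : Monotone fun x => 3 * κ x := fun x y hxy => by
    have := hκ hxy
    dsimp only
    linarith
  intro B
  obtain ⟨K, hK⟩ := Pool.Agent.U72.NP.HM_BC _ h B
  refine ⟨K, ?_⟩
  rintro x ⟨⟨D, F, G, b, hF, hG, hrel, hdeg, hd, hm, rfl⟩, hx⟩
  have hF0 : D * F ≠ 0 := by
    intro h
    exact hF (by rw [h, coeff_zero])
  have hG0 : D * G ≠ 0 := by
    intro h
    exact hG (by rw [h, coeff_zero])
  have hr : 0 ≤ κ (measure F) := (Real.sqrt_nonneg _).trans hd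
  refine hK ⟨Pool.Agent.U72.NP.HM_pair (b := b) hF hG hrel ?_ ?_ hm, hx⟩
  · rw [natDegree_mul (left_ne_zero_of_mul hF0) (right_ne_zero_of_mul hF0),
      natDegree_mul (left_ne_zero_of_mul hF0) (right_ne_zero_of_mul hG0)]
    push_cast
    rw [add_sub_add_left_eq_sub]
    exact hdeg
  · exact (Real.sqrt_le_left hr).mp hd

lemma isometry_BC (κ : ℝ → ℝ) (hκ : Monotone κ) : Pool.Agent.TH845.KN.BC (isometryMeasures κ) := by
  have h : Monotone fun x => 18 * κ x := fun x y hxy => by
    have := hκ hxy
    dsimp only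
    linarith
  intro B
  obtain ⟨K, hK⟩ := Pool.Agent.U72.NP.HM_BC _ h B
  refine ⟨K, ?_⟩
  rintro x ⟨⟨n, p, S, A, B, D, F, G, hS, hA, hB, hrel, hr, hm, rfl⟩, hx⟩
  have hinj := RingHom.injective_int (Int.castRingHom ℂ)
  have hF0 : D * F ≠ 0 := by
    intro h0
    have h1 := hA.charpoly
    rw [h0, Polynomial.map_zero] at h1
    exact A.charpoly_monic.ne_zero h1.symm
  have hG0 : D * G ≠ 0 := by
    intro h0
    have h1 := hB.charpoly
    rw [h0, Polynomial.map_zero] at h1
    exact B.charpoly_monic.ne_zero h1.symm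
  obtain ⟨W, hW, hpos⟩ := hS.positive
  have h1 := Pool.Agent.U72.NP.iso_pair (s := (A - B).rank) hS.hermitian
    (isUnit_iff_ne_zero.mpr hS.nondegenerate) hA.isometry hB.isometry
    ⟨W, by simpa using hW, hpos⟩ le_rfl hA.charpoly hB.charpoly
  have h2 : (0:ℝ) ≤ κ (measure F) := le_trans (by positivity) hr
  refine hK ⟨⟨D, F, G, left_ne_zero_of_mul hF0, right_ne_zero_of_mul hF0,
    right_ne_zero_of_mul hG0, hrel, ?_, ?_, rfl⟩, hx⟩
  · change measure (D * G) ≤ 18 * κ (measure F)
    linarith
  · refine h1.trans ?_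
    change _ ≤ _ + 18 * κ (measure F)
    linarith

theorem result (κ : ℝ → ℝ) (hκ : Monotone κ) (T : Set ℝ) (hT : BoundedCompanions T) :
    BoundedCompanions (Submonoid.closure (T ∪ classMeasures κ) : Submonoid ℝ) ∧
    closure ((Submonoid.closure (T ∪ classMeasures κ) : Submonoid ℝ) : Set ℝ) ⊆ allMeasures ∧
    (∃ δ : ℝ, 1 < δ ∧ ∀ x ∈ (Submonoid.closure (T ∪ classMeasures κ) : Submonoid ℝ),
      x = 1 ∨ δ ≤ x) ∧
    ∀ B : ℝ, ∃ m : ℕ, ∀ x ∈ derivedSet^[m]
      ((Submonoid.closure (T ∪ classMeasures κ) : Submonoid ℝ) : Set ℝ), B ≤ x := by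
  have hB : Pool.Agent.TH845.KN.BC (classMeasures κ) :=
    Pool.Agent.TH845.KN.BC.union
      (Pool.Agent.TH845.KN.BC.union (uniform_BC κ hκ) (pair_BC κ hκ)) (isometry_BC κ hκ)
  have h1 : Pool.Agent.TH845.KN.BC
      ((Submonoid.closure (T ∪ classMeasures κ) : Submonoid ℝ) : Set ℝ) :=
    Pool.Agent.TH845.KN.BC_monoid (Pool.Agent.TH845.KN.BC.union hT hB)
  obtain ⟨h2, h3⟩ := Pool.Agent.W242.IM.closure_of_LL _ h1
  exact ⟨h1, h2, Pool.Agent.TH845.KN.gap_BC h1, h3⟩

end

end Pool.Agent.Results.MP_6d22ea_nt.ZeroDiscrepancy
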